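import Pool.Agent.Y267.HZ.Bas

set_option autoImplicit false

namespace Pool.Agent.Y267.HZ

open Pool.Agent.Y745.HZ

theorem rc_abs (x y : ℝ) : rc x y = rc x |y| := by
  unfold rc
  rcases abs_choice y with h | h
  · rw [h]
  · rw [h, Real.sinh_neg, neg_sq]

/-- the exponent inside the saddle points -/
theorem in_exp {T k r w ρ s τ z : ℝ} (h : Bas T k r w ρ s τ z) (y : ℝ) :
    w * T - k * rc w y ≤
      z * ((5 / 2 * w ^ 2 - (r ^ 2 - Real.sinh y ^ 2)) / (w ^ 2 + Real.sinh y ^ 2)) := by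
  have hT0 : 0 < T := by linarith [h.hT]
  have hr0 : 0 < r := by rw [h.hr]; exact pow_pos h.hs 2
  have hk : k = r ^ 2 * T := by rw [h.hk, h.hr, h.hTτ]; ring
  have hk0 : 0 < k := by rw [hk]; positivity
  have hw0 : 0 < w := by rw [h.hw]; exact div_pos h.hs h.hτ
  have hw1 := h.hw1
  have hsw : 0 < Real.sin w := Real.sin_pos_of_pos_of_lt_pi hw0 (by
    have := Real.pi_gt_three; linarith)
  have hwT : w * T = z := by
    have := h.hτ
    rw [h.hw, h.hTτ, h.hz]
    field_simp
  have hD : 0 < Real.sin w ^ 2 + Real.sinh y ^ 2 := by positivity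
  have hD2 : 0 < w ^ 2 + Real.sinh y ^ 2 := by positivity
  have h1 := sc_ge hw0.le (by linarith)
  have h2 : Real.sin w ^ 2 ≤ w ^ 2 := pow_le_pow_left₀ hsw.le (Real.sin_le hw0.le) 2
  have h3 : k * (w - w ^ 3) / (w ^ 2 + Real.sinh y ^ 2) ≤ k * rc w y := by
    unfold rc
    rw [mul_div_assoc']
    have h0 : 0 ≤ w - w ^ 3 := by
      have : 0 ≤ w * (1 - w ^ 2) := mul_nonneg hw0.le (by nlinarith)
      nlinarith
    calc k * (w - w ^ 3) / (w ^ 2 + Real.sinh y ^ 2)
        ≤ k * (w - w ^ 3) / (Real.sin w ^ 2 + Real.sinh y ^ 2) := by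
          apply div_le_div_of_nonneg_left (by positivity) hD (by linarith)
      _ ≤ k * (Real.sin w * Real.cos w) / (Real.sin w ^ 2 + Real.sinh y ^ 2) :=
          div_le_div_of_nonneg_right (mul_le_mul_of_nonneg_left h1 hk0.le) hD.le
  have h4 : w * T - k * (w - w ^ 3) / (w ^ 2 + Real.sinh y ^ 2) =
      z * (((1 + r ^ 2) * w ^ 2 - (r ^ 2 - Real.sinh y ^ 2)) / (w ^ 2 + Real.sinh y ^ 2)) := by
    rw [hk, ← hwT]
    field_simp
    ring
  have h5 : z * (((1 + r ^ 2) * w ^ 2 - (r ^ 2 - Real.sinh y ^ 2)) / (w ^ 2 + Real.sinh y ^ 2)) ≤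
      z * ((5 / 2 * w ^ 2 - (r ^ 2 - Real.sinh y ^ 2)) / (w ^ 2 + Real.sinh y ^ 2)) := by
    apply mul_le_mul_of_nonneg_left _ (by linarith [h.hz7])
    apply div_le_div_of_nonneg_right _ hD2.le
    have : r ^ 2 ≤ 3 / 2 := by
      have := h.hr1
      nlinarith
    nlinarith [sq_nonneg w]
  linarith

theorem in_maj {T k r w ρ s τ z : ℝ} (h : Bas T k r w ρ s τ z) (y : ℝ) (hy : |y| ≤ ρ) :
    hh T k w y ≤ 34 * Real.exp 10 * (s ^ 5)⁻¹ * Real.exp (-(z / r * (ρ - |y|))) +
      120 * (s ^ 5)⁻¹ * (1 / z) := by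
  have hT0 : 0 < T := by linarith [h.hT]
  have hs := h.hs
  have hr0 : 0 < r := by rw [h.hr]; exact pow_pos h.hs 2
  have hw0 : 0 < w := by rw [h.hw]; exact div_pos h.hs h.hτ
  have hz7 := h.hz7
  have hz0 : 0 < z := by linarith
  have hs4 : s ^ 4 = r ^ 2 := by rw [h.hr]; ring
  have hwz : w * z = r := by
    have := h.hτ
    rw [h.hw, h.hz, h.hr]
    field_simp
  have hw2 : 49 * w ^ 2 ≤ r ^ 2 := by
    have : r ^ 2 = w ^ 2 * z ^ 2 := by rw [← hwz]; ring
    rw [this]
    have : (49 : ℝ) ≤ z ^ 2 := by nlinarith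
    nlinarith [sq_nonneg w, mul_le_mul_of_nonneg_left this (sq_nonneg w)]
  obtain ⟨t, ht⟩ : ∃ t, t = Real.sinh |y| := ⟨_, rfl⟩
  have ht0 : 0 ≤ t := by rw [ht]; exact Real.sinh_nonneg_iff.2 (abs_nonneg y)
  have htr : t ≤ r := by rw [ht, ← h.hρs]; exact Real.sinh_le_sinh.2 hy
  have hty : Real.sinh y ^ 2 = t ^ 2 := by
    rw [ht]
    rcases abs_choice y with h' | h'
    · rw [h']
    · rw [h', Real.sinh_neg, neg_sq]
  have he := in_exp h y
  rw [hty] at he
  have hD2 : 0 < w ^ 2 + t ^ 2 := by positivity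
  unfold hh
  rcases le_or_gt (r / 2) t with hc | hc
  · -- near the saddle points
    have h1 : z * ((5 / 2 * w ^ 2 - (r ^ 2 - t ^ 2)) / (w ^ 2 + t ^ 2)) ≤
        10 - z / r * (ρ - |y|) := by
      have ha : z * (5 / 2 * w ^ 2 / (w ^ 2 + t ^ 2)) ≤ 10 := by
        have h2 : 5 / 2 * w ^ 2 / (w ^ 2 + t ^ 2) ≤ 5 / 2 * w ^ 2 / (r ^ 2 / 4) := by
          apply div_le_div_of_nonneg_left (by positivity) (by positivity)
          nlinarith [sq_nonneg w]
        have h3 : z * (5 / 2 * w ^ 2 / (r ^ 2 / 4)) = 10 / z := by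
          rw [← hwz]
          field_simp
          norm_num
        have h4 : 10 / z ≤ 10 := by
          rw [div_le_iff₀ hz0]
          linarith
        have := mul_le_mul_of_nonneg_left h2 hz0.le
        linarith
      have hb : (ρ - |y|) / r ≤ (r ^ 2 - t ^ 2) / (w ^ 2 + t ^ 2) := by
        have h2 : ρ - |y| ≤ r - t := by
          have := Real.sinh_sub_id_strictMono.monotone hy
          rw [h.hρs, ← ht] at this
          linarith
        rw [div_le_div_iff₀ hr0 hD2]
        have h3 : 0 ≤ r - t := by linarith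
        have h4 : w ^ 2 + t ^ 2 ≤ r * (r + t) := by nlinarith
        calc (ρ - |y|) * (w ^ 2 + t ^ 2) ≤ (r - t) * (w ^ 2 + t ^ 2) :=
              mul_le_mul_of_nonneg_right h2 hD2.le
          _ ≤ (r - t) * (r * (r + t)) := mul_le_mul_of_nonneg_left h4 h3
          _ = (r ^ 2 - t ^ 2) * r := by ring
      have hb2 := mul_le_mul_of_nonneg_left hb hz0.le
      have e1 : z * ((5 / 2 * w ^ 2 - (r ^ 2 - t ^ 2)) / (w ^ 2 + t ^ 2)) =
          z * (5 / 2 * w ^ 2 / (w ^ 2 + t ^ 2)) - z * ((r ^ 2 - t ^ 2) / (w ^ 2 + t ^ 2)) := by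
        rw [sub_div, mul_sub]
      have e2 : z / r * (ρ - |y|) = z * ((ρ - |y|) / r) := by ring
      rw [e1, e2]
      linarith
    have h3 : (25 / 144 : ℝ) * s ^ 4 ≤ w ^ 2 + y ^ 2 := by
      have h4 : t ≤ 6 / 5 * |y| := by
        rw [ht]
        exact sinh_le (abs_nonneg y) (hy.trans h.hρ1)
      rw [hs4]
      have h5 : r ≤ 12 / 5 * |y| := by linarith
      have h6 : r ^ 2 ≤ (12 / 5 * |y|) ^ 2 := pow_le_pow_left₀ hr0.le h5 2
      rw [mul_pow, sq_abs] at h6
      nlinarith [sq_nonneg w]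
    have h4 := rp hs (by norm_num) (by norm_num) h3
    have h5 : (((25 : ℝ) / 144) ^ 2)⁻¹ * (s ^ 5)⁻¹ ≤ 34 * (s ^ 5)⁻¹ :=
      mul_le_mul_of_nonneg_right (by norm_num) (by positivity)
    have h6 : Real.exp (w * T - k * rc w y) ≤
        Real.exp 10 * Real.exp (-(z / r * (ρ - |y|))) := by
      rw [← Real.exp_add]
      apply Real.exp_le_exp.2
      linarith
    have h7 := mul_le_mul (h4.trans h5) h6 (Real.exp_pos _).le (by positivity)
    have h8 : 0 ≤ 120 * (s ^ 5)⁻¹ * (1 / z) := by positivity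
    nlinarith
  · -- far from the saddle points
    have h1 : z * ((5 / 2 * w ^ 2 - (r ^ 2 - t ^ 2)) / (w ^ 2 + t ^ 2)) ≤ -z := by
      have h2 : (5 / 2 * w ^ 2 - (r ^ 2 - t ^ 2)) / (w ^ 2 + t ^ 2) ≤ -1 := by
        rw [div_le_iff₀ hD2]
        nlinarith
      have := mul_le_mul_of_nonneg_left h2 hz0.le
      linarith
    have h3 : (z ^ 2)⁻¹ * s ^ 4 ≤ w ^ 2 + y ^ 2 := by
      rw [hs4, ← hwz]
      have : (z ^ 2)⁻¹ * (w * z) ^ 2 = w ^ 2 := by
        field_simp
      rw [this]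
      nlinarith [sq_nonneg y]
    have h4 := rp hs (by positivity) (by
      apply inv_le_one_of_one_le₀
      nlinarith) h3
    have h5 : (((z ^ 2)⁻¹) ^ 2)⁻¹ = z ^ 4 := by
      field_simp
    rw [h5] at h4
    have h6 : Real.exp (w * T - k * rc w y) ≤ Real.exp (-z) := Real.exp_le_exp.2 (by linarith)
    have h7 := mul_le_mul h4 h6 (Real.exp_pos _).le (by positivity)
    have h8 : z ^ 4 * Real.exp (-z) ≤ 120 * (1 / z) := by
      have h9 : z ^ 5 / (Nat.factorial 5 : ℝ) ≤ Real.exp z := Real.pow_div_factorial_le_exp z hz0.le 5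
      have h10 : (Nat.factorial 5 : ℝ) = 120 := by norm_num [Nat.factorial]
      rw [h10] at h9
      rw [Real.exp_neg, mul_one_div, ← div_eq_mul_inv, div_le_div_iff₀ (Real.exp_pos _) hz0]
      nlinarith
    have h9 : z ^ 4 * (s ^ 5)⁻¹ * Real.exp (-z) ≤ 120 * (s ^ 5)⁻¹ * (1 / z) := by
      have := mul_le_mul_of_nonneg_left h8 (show (0 : ℝ) ≤ (s ^ 5)⁻¹ by positivity)
      nlinarith
    have h10 : 0 ≤ 34 * Real.exp 10 * (s ^ 5)⁻¹ * Real.exp (-(z / r * (ρ - |y|))) := by
      positivity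
    linarith

theorem t_IN : P_IN := by
  refine ⟨68 * Real.exp 10 + 240, by positivity, ?_⟩
  intro T k r w ρ hT hk hkT hr hw hρ
  have h := bas T k r w ρ hT hk hkT hr hw hρ
  generalize √r = s at h
  have hq := h.hq
  generalize hz : √T * s = z at h
  rw [hq]
  generalize √T = τ at h
  have hs := h.hs
  have hτ := h.hτ
  have hT0 : 0 < T := by linarith
  have hρ0 := h.hρ0
  have hz7 := h.hz7
  have hz0 : 0 < z := by linarith
  have hr0 : 0 < r := by rw [h.hr]; positivity
  have hw0 : 0 < w := by rw [h.hw]; positivity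
  have hX : 0 < 1 / (s ^ 4 * τ) := by positivity
  have hle : -ρ ≤ ρ := by linarith
  have hcz : 0 < z / r := by positivity
  -- the majorant
  have hmaj : ∀ y ∈ Set.Icc (-ρ) ρ, hh T k w y ≤
      34 * Real.exp 10 * (s ^ 5)⁻¹ * (Real.exp (z / r * (y - ρ)) + Real.exp (-(z / r) * (y + ρ))) +
      120 * (s ^ 5)⁻¹ * (1 / z) := by
    intro y hy
    have hay : |y| ≤ ρ := abs_le.2 hy
    refine (in_maj h y hay).trans ?_
    have h1 : Real.exp (-(z / r * (ρ - |y|))) ≤
        Real.exp (z / r * (y - ρ)) + Real.exp (-(z / r) * (y + ρ)) := by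
      rcases abs_choice y with h' | h'
      · rw [h']
        have e : -(z / r * (ρ - y)) = z / r * (y - ρ) := by ring
        rw [e]
        linarith [Real.exp_pos (-(z / r) * (y + ρ))]
      · rw [h']
        have e : -(z / r * (ρ - -y)) = -(z / r) * (y + ρ) := by ring
        rw [e]
        linarith [Real.exp_pos (z / r * (y - ρ))]
    have := mul_le_mul_of_nonneg_left h1 (show 0 ≤ 34 * Real.exp 10 * (s ^ 5)⁻¹ by positivity)
    linarith
  have hcont2 : Continuous (fun y : ℝ => hh T k w y) := by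
    have hsw : 0 < Real.sin w := Real.sin_pos_of_pos_of_lt_pi hw0 (by
      have := Real.pi_gt_three
      have := h.hw1
      linarith)
    unfold hh rc
    apply Continuous.mul
    · apply Continuous.rpow_const (by fun_prop)
      intro y
      left
      have : 0 < w ^ 2 := by positivity
      nlinarith [sq_nonneg y]
    · apply Real.continuous_exp.comp
      apply Continuous.sub continuous_const
      apply Continuous.mul continuous_const
      apply Continuous.div continuous_const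
      · exact continuous_const.add (Real.continuous_sinh.pow 2)
      · intro y
        positivity
  have hcm : Continuous (fun y : ℝ => 34 * Real.exp 10 * (s ^ 5)⁻¹ *
      (Real.exp (z / r * (y - ρ)) + Real.exp (-(z / r) * (y + ρ))) +
      120 * (s ^ 5)⁻¹ * (1 / z)) := by fun_prop
  have h1 : (∫ y in (-ρ)..ρ, hh T k w y) ≤ ∫ y in (-ρ)..ρ, (34 * Real.exp 10 * (s ^ 5)⁻¹ *
      (Real.exp (z / r * (y - ρ)) + Real.exp (-(z / r) * (y + ρ))) +
      120 * (s ^ 5)⁻¹ * (1 / z)) := by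
    apply intervalIntegral.integral_mono_on hle
    · exact hcont2.intervalIntegrable _ _
    · exact hcm.intervalIntegrable _ _
    · exact hmaj
  refine h1.trans ?_
  have hI1 : (∫ y in (-ρ)..ρ, Real.exp (z / r * (y - ρ))) ≤ r / z := by
    have h2 : (∫ y in (-ρ)..ρ, Real.exp (z / r * (y - ρ))) =
        r / z * Real.exp (z / r * (ρ - ρ)) - r / z * Real.exp (z / r * (-ρ - ρ)) := by
      apply intervalIntegral.integral_eq_sub_of_hasDerivAt
        (f := fun y => r / z * Real.exp (z / r * (y - ρ)))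
      · intro y _
        have h3 : HasDerivAt (fun y : ℝ => z / r * (y - ρ)) (z / r * 1) y :=
          ((hasDerivAt_id y).sub_const ρ).const_mul (z / r)
        have h4 := (h3.exp).const_mul (r / z)
        refine h4.congr_deriv ?_
        field_simp
      · exact (by fun_prop : Continuous fun y : ℝ => Real.exp (z / r * (y - ρ))).intervalIntegrable _ _
    rw [h2, sub_self, mul_zero, Real.exp_zero]
    have : 0 ≤ r / z * Real.exp (z / r * (-ρ - ρ)) := by positivity
    linarith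
  have hI2 : (∫ y in (-ρ)..ρ, Real.exp (-(z / r) * (y + ρ))) ≤ r / z := by
    have h2 : (∫ y in (-ρ)..ρ, Real.exp (-(z / r) * (y + ρ))) =
        -(r / z) * Real.exp (-(z / r) * (ρ + ρ)) - -(r / z) * Real.exp (-(z / r) * (-ρ + ρ)) := by
      apply intervalIntegral.integral_eq_sub_of_hasDerivAt
        (f := fun y => -(r / z) * Real.exp (-(z / r) * (y + ρ)))
      · intro y _
        have h3 : HasDerivAt (fun y : ℝ => -(z / r) * (y + ρ)) (-(z / r) * 1) y :=
          ((hasDerivAt_id y).add_const ρ).const_mul (-(z / r))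
        have h4 := (h3.exp).const_mul (-(r / z))
        refine h4.congr_deriv ?_
        field_simp
      · exact (by fun_prop : Continuous fun y : ℝ =>
          Real.exp (-(z / r) * (y + ρ))).intervalIntegrable _ _
    rw [h2, neg_add_cancel, mul_zero, Real.exp_zero]
    have : 0 ≤ r / z * Real.exp (-(z / r) * (ρ + ρ)) := by positivity
    linarith
  have c1 : Continuous (fun y : ℝ => Real.exp (z / r * (y - ρ))) := by fun_prop
  have c2 : Continuous (fun y : ℝ => Real.exp (-(z / r) * (y + ρ))) := by fun_prop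
  have c3 : Continuous (fun y : ℝ => 34 * Real.exp 10 * (s ^ 5)⁻¹ *
      (Real.exp (z / r * (y - ρ)) + Real.exp (-(z / r) * (y + ρ)))) := by fun_prop
  have c4 : Continuous (fun _ : ℝ => 120 * (s ^ 5)⁻¹ * (1 / z)) := continuous_const
  rw [intervalIntegral.integral_add (c3.intervalIntegrable _ _) (c4.intervalIntegrable _ _),
    intervalIntegral.integral_const_mul,
    intervalIntegral.integral_add (c1.intervalIntegrable _ _) (c2.intervalIntegrable _ _),
    intervalIntegral.integral_const]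
  have h3 : 34 * Real.exp 10 * (s ^ 5)⁻¹ * ((∫ y in (-ρ)..ρ, Real.exp (z / r * (y - ρ))) +
      ∫ y in (-ρ)..ρ, Real.exp (-(z / r) * (y + ρ))) ≤
      34 * Real.exp 10 * (s ^ 5)⁻¹ * (2 * (r / z)) :=
    mul_le_mul_of_nonneg_left (by linarith) (by positivity)
  have h4 : (ρ - -ρ) • (120 * (s ^ 5)⁻¹ * (1 / z)) ≤ 2 * r * (120 * (s ^ 5)⁻¹ * (1 / z)) := by
    rw [smul_eq_mul]
    apply mul_le_mul_of_nonneg_right _ (by positivity)
    linarith [h.hρr]
  refine (add_le_add h3 h4).trans (le_of_eq ?_)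
  rw [h.hz, h.hr]
  field_simp
  ring

end Pool.Agent.Y267.HZ
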