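import Pool.Agent.Y267.HZ.Bas

set_option autoImplicit false

namespace Pool.Agent.Y267.HZ

open Pool.Agent.Y745.HZ

theorem out_exp {T k r w ρ s τ z : ℝ} (h : Bas T k r w ρ s τ z) (y : ℝ) (hy : ρ ≤ y)
    (hy1 : y ≤ 1) : -w * T - k * rc (-w) y ≤ -(5 / 6 * z * (1 - ρ / y)) := by
  have hT0 : 0 < T := by linarith [h.hT]
  have hr0 : 0 < r := by rw [h.hr]; exact pow_pos h.hs 2
  have hk : k = r ^ 2 * T := by rw [h.hk, h.hr, h.hTτ]; ring
  have hw0 : 0 < w := by rw [h.hw]; exact div_pos h.hs h.hτ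
  have hy0 : 0 < y := h.hρ0.trans_le hy
  have hsy : 0 < Real.sinh y := Real.sinh_pos_iff.2 hy0
  have hD : 0 < Real.sin w ^ 2 + Real.sinh y ^ 2 := by positivity
  have hwT : w * T = z := by
    have := h.hτ
    rw [h.hw, h.hTτ, h.hz]
    field_simp
  have h1 : -(k * rc (-w) y) ≤ k * w / Real.sinh y ^ 2 := by
    unfold rc
    rw [Real.sin_neg, Real.cos_neg]
    have e1 : -(k * (-Real.sin w * Real.cos w / ((-Real.sin w) ^ 2 + Real.sinh y ^ 2))) =
        k * (Real.sin w * Real.cos w) / (Real.sin w ^ 2 + Real.sinh y ^ 2) := by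
      rw [neg_sq]
      ring
    rw [e1]
    have hk0 : 0 < k := by rw [hk]; positivity
    have h2 : k * (Real.sin w * Real.cos w) / (Real.sin w ^ 2 + Real.sinh y ^ 2) ≤
        k * w / (Real.sin w ^ 2 + Real.sinh y ^ 2) :=
      div_le_div_of_nonneg_right (mul_le_mul_of_nonneg_left (sc_le hw0.le) hk0.le) hD.le
    refine h2.trans ?_
    apply div_le_div_of_nonneg_left (by positivity) (by positivity)
    nlinarith [sq_nonneg (Real.sin w)]
  have hsρ : r ≤ Real.sinh y := by
    rw [← h.hρs]; exact Real.sinh_le_sinh.2 hy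
  have h3 : -w * T + k * w / Real.sinh y ^ 2 ≤ -(z * (1 - r / Real.sinh y)) := by
    have e1 : -w * T + k * w / Real.sinh y ^ 2 = -(z * (1 - (r / Real.sinh y) ^ 2)) := by
      rw [hk, ← hwT]
      field_simp
      ring
    rw [e1]
    have h4 : 0 ≤ r / Real.sinh y := by positivity
    have h5 : r / Real.sinh y ≤ 1 := (div_le_one hsy).2 hsρ
    have h6 : (r / Real.sinh y) ^ 2 ≤ r / Real.sinh y := by nlinarith
    have hz0 : 0 ≤ z := by linarith [h.hz7]
    have := mul_le_mul_of_nonneg_left h6 hz0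
    linarith
  have h4 : 5 / 6 * (1 - ρ / y) ≤ 1 - r / Real.sinh y := by
    have h5 : y - ρ ≤ Real.sinh y - r := by
      have := Real.sinh_sub_id_strictMono.monotone hy
      rw [h.hρs] at this
      linarith
    have h6 : Real.sinh y ≤ 6 / 5 * y := sinh_le hy0.le hy1
    have e1 : 1 - ρ / y = (y - ρ) / y := by field_simp
    have e2 : 1 - r / Real.sinh y = (Real.sinh y - r) / Real.sinh y := by field_simp
    rw [e1, e2, mul_div_assoc', div_le_div_iff₀ hy0 hsy]
    have h7 : 0 ≤ y - ρ := by linarith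
    nlinarith
  have hz0 : 0 ≤ z := by linarith [h.hz7]
  have := mul_le_mul_of_nonneg_left h4 hz0
  nlinarith

theorem t_OUT : P_OUT := by
  refine ⟨3, by norm_num, ?_⟩
  intro T k r w ρ hT hk hkT hr hw hρ
  have h := bas T k r w ρ hT hk hkT hr hw hρ
  generalize √r = s at h
  have hq := h.hq
  generalize hz : √T * s = z at h
  rw [hq]
  generalize √T = τ at h
  have hs := h.hs
  have hτ := h.hτ
  have hT0 : 0 < T := by linarith
  have hρ0 := h.hρ0
  have hz7 := h.hz7
  have hw0 : 0 < w := by rw [h.hw]; positivity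
  have hX : 0 < 1 / (s ^ 4 * τ) := by positivity
  have hmaj : ∀ y ∈ Set.Icc ρ 1, hh T k (-w) y ≤
      (36 / 25) * s⁻¹ * ((y ^ 2)⁻¹ * Real.exp (-(5 / 6 * z * (1 - ρ / y)))) := by
    intro y hy
    have hy0 : 0 < y := hρ0.trans_le hy.1
    unfold hh
    have h1 := out_exp h y hy.1 hy.2
    have h3 : (25 / 36 : ℝ) * s ^ 4 ≤ (-w) ^ 2 + y ^ 2 := by
      have h4 := h.hrρ
      have h5 : s ^ 4 = r ^ 2 := by rw [h.hr]; ring
      rw [h5]
      have hr0 : 0 < r := by rw [h.hr]; positivity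
      have h6 : r ≤ 6 / 5 * y := by linarith [hy.1]
      nlinarith [sq_nonneg w]
    have h4 := rp2 hs (by norm_num) (by norm_num) h3
    have h5 : ((-w) ^ 2 + y ^ 2)⁻¹ ≤ (y ^ 2)⁻¹ := by
      apply inv_anti₀ (by positivity)
      nlinarith [sq_nonneg w]
    have h6 : ((-w) ^ 2 + y ^ 2) ^ (-(5 / 4) : ℝ) ≤ (y ^ 2)⁻¹ * ((25 / 36 : ℝ)⁻¹ * s⁻¹) :=
      h4.trans (mul_le_mul_of_nonneg_right h5 (by positivity))
    calc ((-w) ^ 2 + y ^ 2) ^ (-(5 / 4) : ℝ) * Real.exp (-w * T - k * rc (-w) y)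
        ≤ ((y ^ 2)⁻¹ * ((25 / 36 : ℝ)⁻¹ * s⁻¹)) * Real.exp (-(5 / 6 * z * (1 - ρ / y))) :=
          mul_le_mul h6 (Real.exp_le_exp.2 h1) (Real.exp_pos _).le (by positivity)
      _ = (36 / 25) * s⁻¹ * ((y ^ 2)⁻¹ * Real.exp (-(5 / 6 * z * (1 - ρ / y)))) := by
          ring
  have hρ1 := h.hρ1
  have hcont : ContinuousOn (fun y : ℝ => (y ^ 2)⁻¹ * Real.exp (-(5 / 6 * z * (1 - ρ / y))))
      (Set.Icc ρ 1) := by
    have hne : ∀ y ∈ Set.Icc ρ 1, y ≠ 0 := fun y hy => (hρ0.trans_le hy.1).ne'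
    apply ContinuousOn.mul
    · exact ContinuousOn.inv₀ (by fun_prop) (fun y hy => pow_ne_zero 2 (hne y hy))
    · apply Real.continuous_exp.comp_continuousOn
      apply ContinuousOn.neg
      apply ContinuousOn.mul continuousOn_const
      apply ContinuousOn.sub continuousOn_const
      exact ContinuousOn.div continuousOn_const continuousOn_id hne
  have hcont2 : ContinuousOn (fun y : ℝ => hh T k (-w) y) (Set.Icc ρ 1) := by
    have hne : ∀ y ∈ Set.Icc ρ 1, y ≠ 0 := fun y hy => (hρ0.trans_le hy.1).ne'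
    unfold hh rc
    apply ContinuousOn.mul
    · apply ContinuousOn.rpow_const (by fun_prop)
      intro y hy
      left
      have : 0 < y ^ 2 := by have := hne y hy; positivity
      nlinarith [sq_nonneg w]
    · apply Real.continuous_exp.comp_continuousOn
      apply ContinuousOn.sub continuousOn_const
      apply ContinuousOn.mul continuousOn_const
      apply ContinuousOn.div continuousOn_const
      · exact (continuousOn_const.add ((Real.continuous_sinh.pow 2).continuousOn))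
      · intro y hy
        have h1 : 0 < Real.sinh y := Real.sinh_pos_iff.2 (hρ0.trans_le hy.1)
        positivity
  have h1 : (∫ y in ρ..1, hh T k (-w) y) ≤ ∫ y in ρ..1,
      (36 / 25) * s⁻¹ * ((y ^ 2)⁻¹ * Real.exp (-(5 / 6 * z * (1 - ρ / y)))) := by
    apply intervalIntegral.integral_mono_on hρ1
    · exact ContinuousOn.intervalIntegrable_of_Icc hρ1 hcont2
    · exact ContinuousOn.intervalIntegrable_of_Icc hρ1 (continuousOn_const.mul hcont)
    · exact hmaj
  refine h1.trans ?_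
  rw [intervalIntegral.integral_const_mul]
  have hz0 : 0 < z := by linarith
  have h2 : (∫ y in ρ..1, (y ^ 2)⁻¹ * Real.exp (-(5 / 6 * z * (1 - ρ / y)))) =
      -(1 / (5 / 6 * z * ρ)) * Real.exp (-(5 / 6 * z * (1 - ρ / 1))) -
        -(1 / (5 / 6 * z * ρ)) * Real.exp (-(5 / 6 * z * (1 - ρ / ρ))) := by
    apply intervalIntegral.integral_eq_sub_of_hasDerivAt (f := fun y =>
      -(1 / (5 / 6 * z * ρ)) * Real.exp (-(5 / 6 * z * (1 - ρ / y))))
    · intro y hy
      rw [Set.uIcc_of_le hρ1] at hy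
      have hy0 : y ≠ 0 := (hρ0.trans_le hy.1).ne'
      have h3 : HasDerivAt (fun y : ℝ => ρ / y) (-(ρ / y ^ 2)) y := by
        have := (hasDerivAt_inv hy0).const_mul ρ
        refine this.congr_deriv ?_ |>.congr_of_eventuallyEq ?_
        · ring
        · exact Filter.Eventually.of_forall fun t => by
            simp only []
            rw [div_eq_mul_inv]
      have h5 : HasDerivAt (fun y : ℝ => -(5 / 6 * z * (1 - ρ / y)))
          (-(5 / 6 * z * (ρ / y ^ 2))) y := by
        have h6 := ((h3.const_sub 1).const_mul (5 / 6 * z)).neg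
        refine h6.congr_deriv ?_
        ring
      have h4 := (h5.exp).const_mul (-(1 / (5 / 6 * z * ρ)))
      refine h4.congr_deriv ?_
      generalize Real.exp (-(5 / 6 * z * (1 - ρ / y))) = e
      field_simp
    · exact ContinuousOn.intervalIntegrable_of_Icc hρ1 hcont
  rw [h2]
  have h3 : -(1 / (5 / 6 * z * ρ)) * Real.exp (-(5 / 6 * z * (1 - ρ / 1))) -
        -(1 / (5 / 6 * z * ρ)) * Real.exp (-(5 / 6 * z * (1 - ρ / ρ))) ≤ 1 / (5 / 6 * z * ρ) := by
    rw [div_self hρ0.ne', sub_self, mul_zero, neg_zero, Real.exp_zero]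
    have : 0 ≤ 1 / (5 / 6 * z * ρ) * Real.exp (-(5 / 6 * z * (1 - ρ / 1))) := by positivity
    linarith
  have h4 : 1 / (5 / 6 * z * ρ) ≤ 36 / 25 * (1 / (τ * s ^ 3)) := by
    have h5 := h.hrρ
    rw [h.hr] at h5
    rw [mul_one_div, div_le_div_iff₀ (by positivity) (by positivity), h.hz]
    have h6 : τ * s * s ^ 2 ≤ τ * s * (6 / 5 * ρ) :=
      mul_le_mul_of_nonneg_left h5 (by positivity)
    nlinarith
  have h5 := mul_le_mul_of_nonneg_left (h3.trans h4) (show 0 ≤ (36 / 25) * s⁻¹ by positivity)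
  refine h5.trans ?_
  have h6 : (36 / 25) * s⁻¹ * (36 / 25 * (1 / (τ * s ^ 3))) =
      (36 / 25) ^ 2 * (1 / (s ^ 4 * τ)) := by
    field_simp
  rw [h6]
  apply mul_le_mul_of_nonneg_right _ hX.le
  norm_num

end Pool.Agent.Y267.HZ
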