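import Pool.Agent.Y267.HZ.Bas

set_option autoImplicit false

namespace Pool.Agent.Y267.HZ

open Pool.Agent.Y745.HZ

/-- the exponent on the horizontal part at height `ρ` -/
theorem hor1_exp {T k r w ρ s τ z : ℝ} (h : Bas T k r w ρ s τ z) (x : ℝ) (hx : |x| ≤ w) :
    x * T - k * rc x ρ ≤ 2 := by
  have hT0 : 0 < T := by linarith [h.hT]
  have hr0 : 0 < r := by rw [h.hr]; exact pow_pos h.hs 2
  have hk : k = r ^ 2 * T := by rw [h.hk, h.hr, h.hTτ]; ring
  have hD : 0 < Real.sin x ^ 2 + r ^ 2 := by positivity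
  have e1 : x * T - k * rc x ρ =
      T * (x - r ^ 2 * (Real.sin x * Real.cos x) / (Real.sin x ^ 2 + r ^ 2)) := by
    unfold rc
    rw [h.hρs, hk]
    field_simp
  rw [e1]
  rcases le_total 0 x with h0 | h0
  · have hxw : x ≤ w := (le_abs_self x).trans hx
    have hw1 := h.hw1
    have h1 := sc_ge h0 (by linarith)
    have h2 : Real.sin x ^ 2 ≤ x ^ 2 := by
      have := Real.abs_sin_le_abs (x := x)
      exact sq_le_sq.2 this
    have h3 : x - r ^ 2 * (Real.sin x * Real.cos x) / (Real.sin x ^ 2 + r ^ 2) ≤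
        x ^ 3 * (1 + 1 / r ^ 2) := by
      have h4 : r ^ 2 * (x - x ^ 3) / (Real.sin x ^ 2 + r ^ 2) ≤
          r ^ 2 * (Real.sin x * Real.cos x) / (Real.sin x ^ 2 + r ^ 2) := by
        apply div_le_div_of_nonneg_right _ hD.le
        exact mul_le_mul_of_nonneg_left h1 (by positivity)
      have h5 : r ^ 2 * (x - x ^ 3) / (x ^ 2 + r ^ 2) ≤
          r ^ 2 * (x - x ^ 3) / (Real.sin x ^ 2 + r ^ 2) := by
        apply div_le_div_of_nonneg_left _ hD (by linarith)
        apply mul_nonneg (by positivity)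
        have : 0 ≤ x * (1 - x ^ 2) := mul_nonneg h0 (by nlinarith)
        nlinarith
      have h6 : x - r ^ 2 * (x - x ^ 3) / (x ^ 2 + r ^ 2) ≤ x ^ 3 * (1 + 1 / r ^ 2) := by
        have hD2 : 0 < x ^ 2 + r ^ 2 := by positivity
        have e2 : x - r ^ 2 * (x - x ^ 3) / (x ^ 2 + r ^ 2) =
            x ^ 3 * (1 + r ^ 2) / (x ^ 2 + r ^ 2) := by
          field_simp
          ring
        rw [e2]
        have e3 : x ^ 3 * (1 + 1 / r ^ 2) = x ^ 3 * (1 + r ^ 2) / r ^ 2 := by
          field_simp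
          ring
        rw [e3]
        apply div_le_div_of_nonneg_left (by positivity) (by positivity)
        nlinarith [sq_nonneg x]
      linarith
    have h7 : x ^ 3 * (1 + 1 / r ^ 2) ≤ w ^ 3 * (1 + 1 / r ^ 2) :=
      mul_le_mul_of_nonneg_right (pow_le_pow_left₀ h0 hxw 3) (by positivity)
    have h8 : T * (w ^ 3 * (1 + 1 / r ^ 2)) = s ^ 3 / τ + 1 / z := by
      have := h.hs
      have := h.hτ
      rw [h.hw, h.hr, h.hTτ, h.hz]
      field_simp
    have h9 : s ^ 3 / τ ≤ 1 := by
      have hs := h.hs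
      have h10 : s ≤ 2 := by
        have := h.hr1
        rw [h.hr] at this
        nlinarith
      rw [div_le_one h.hτ]
      have : s ^ 3 ≤ 2 ^ 3 := pow_le_pow_left₀ hs.le h10 3
      have := h.hτ1
      linarith
    have h11 : 1 / z ≤ 1 := by
      have := h.hz7
      rw [div_le_one (by linarith)]
      linarith
    calc T * (x - r ^ 2 * (Real.sin x * Real.cos x) / (Real.sin x ^ 2 + r ^ 2))
        ≤ T * (w ^ 3 * (1 + 1 / r ^ 2)) := mul_le_mul_of_nonneg_left (h3.trans h7) hT0.le
      _ = s ^ 3 / τ + 1 / z := h8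
      _ ≤ 2 := by linarith
  · have h1 := sc_le (u := -x) (by linarith)
    rw [Real.sin_neg, Real.cos_neg] at h1
    have h3 : x - r ^ 2 * (Real.sin x * Real.cos x) / (Real.sin x ^ 2 + r ^ 2) ≤ 0 := by
      rw [sub_nonpos, le_div_iff₀ hD]
      have h4 : x ≤ Real.sin x * Real.cos x := by linarith
      have h5 : x * Real.sin x ^ 2 ≤ 0 := mul_nonpos_of_nonpos_of_nonneg h0 (sq_nonneg _)
      have h6 := mul_le_mul_of_nonneg_left h4 (sq_nonneg r)
      nlinarith
    have := mul_nonpos_of_nonneg_of_nonpos hT0.le h3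
    linarith

theorem hor2_exp {T k r w ρ s τ z : ℝ} (h : Bas T k r w ρ s τ z) (x : ℝ) (hx : -w ≤ x)
    (hx1 : x ≤ 1 / T) : x * T - k * rc x 1 ≤ 1 := by
  have hT0 : 0 < T := by linarith [h.hT]
  have hk0 : 0 < k := by rw [h.hk]; have := h.hs; have := h.hτ; positivity
  have hs1 : 0 < Real.sinh 1 := Real.sinh_pos_iff.2 one_pos
  have hD : 0 < Real.sin x ^ 2 + Real.sinh 1 ^ 2 := by positivity
  rcases le_total 0 x with h0 | h0
  · have h1 : x * T ≤ 1 := by
      rw [le_div_iff₀ hT0] at hx1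
      exact hx1
    have h2 : 0 ≤ rc x 1 := by
      unfold rc
      apply div_nonneg _ hD.le
      have hT1 : 1 / T ≤ 1 := by
        rw [div_le_one hT0]
        linarith [h.hT]
      have hx2 : x ≤ 1 := hx1.trans hT1
      have hpi := Real.pi_gt_three
      apply mul_nonneg
      · exact Real.sin_nonneg_of_nonneg_of_le_pi h0 (by linarith)
      · exact Real.cos_nonneg_of_neg_pi_div_two_le_of_le (by linarith) (by linarith)
    have := mul_nonneg hk0.le h2
    linarith
  · have h1 := sc_le (u := -x) (by linarith)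
    rw [Real.sin_neg, Real.cos_neg] at h1
    have h3 : T * x ≤ k * rc x 1 := by
      unfold rc
      rw [mul_div_assoc', le_div_iff₀ hD]
      have h4 : x ≤ Real.sin x * Real.cos x := by linarith
      have h5 := mul_le_mul_of_nonneg_left h4 hk0.le
      have h6 : T * Real.sinh 1 ^ 2 * x ≤ k * x := by
        apply mul_le_mul_of_nonpos_right _ h0
        linarith [h.hkT]
      have h7 : T * x * Real.sin x ^ 2 ≤ 0 :=
        mul_nonpos_of_nonpos_of_nonneg (mul_nonpos_of_nonneg_of_nonpos hT0.le h0) (sq_nonneg _)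
      nlinarith
    linarith

theorem t_HOR : P_HOR := by
  have he2 : 0 < Real.exp 2 := Real.exp_pos _
  have he1 : 0 < Real.exp 1 := Real.exp_pos _
  refine ⟨10 * Real.exp 2 + 4 * Real.exp 1 * 2, by positivity, ?_⟩
  intro T k r w ρ hT hk hkT hr hw hρ
  have h := bas T k r w ρ hT hk hkT hr hw hρ
  generalize √r = s at h
  have hq := h.hq
  generalize hz : √T * s = z at h
  rw [hq]
  generalize √T = τ at h
  have hs := h.hs
  have hτ := h.hτ
  have hT0 : 0 < T := by linarith
  have hw0 : 0 < w := by rw [h.hw]; positivity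
  have hX : 0 < 1 / (s ^ 4 * τ) := by positivity
  constructor
  · have h1 : ∀ x ∈ Set.uIoc (-w) w, ‖hh T k x ρ‖ ≤
        4 * (s ^ 5)⁻¹ * Real.exp 2 := by
      intro x hx
      rw [Set.uIoc_of_le (by linarith)] at hx
      rw [Real.norm_of_nonneg (hh_nonneg _ _ _ _)]
      unfold hh
      have h2 := hor1_exp h x (abs_le.2 ⟨hx.1.le, hx.2⟩)
      have h3 : (25 / 36 : ℝ) * s ^ 4 ≤ x ^ 2 + ρ ^ 2 := by
        have h4 := h.hrρ
        have h5 : s ^ 4 = r ^ 2 := by rw [h.hr]; ring
        rw [h5]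
        have hr0 : 0 < r := by rw [h.hr]; positivity
        nlinarith [sq_nonneg x, h.hρ0]
      have h4 := rp hs (by norm_num) (by norm_num) h3
      have h5 : (((25 : ℝ) / 36) ^ 2)⁻¹ * (s ^ 5)⁻¹ ≤ 4 * (s ^ 5)⁻¹ :=
        mul_le_mul_of_nonneg_right (by norm_num) (by positivity)
      exact mul_le_mul (h4.trans h5) (Real.exp_le_exp.2 h2) (Real.exp_pos _).le (by positivity)
    have h2 := intervalIntegral.norm_integral_le_of_norm_le_const h1
    have h3 := (le_abs_self _).trans h2
    refine h3.trans ?_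
    have h4 : |w - -w| = 2 * w := by
      rw [abs_of_pos (by linarith)]
      ring
    rw [h4, h.hw]
    have h5 : 4 * (s ^ 5)⁻¹ * Real.exp 2 * (2 * (s / τ)) =
        8 * Real.exp 2 * (1 / (s ^ 4 * τ)) := by
      field_simp
      norm_num
    rw [h5]
    apply mul_le_mul_of_nonneg_right _ hX.le
    linarith
  · have hwT : 1 / T ≤ w := by
      have h7 := h.hz7
      rw [h.hz] at h7
      rw [h.hw, h.hTτ, div_le_div_iff₀ (by positivity) (by positivity)]
      nlinarith
    have h1T : 0 < 1 / T := by positivity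
    have h1 : ∀ x ∈ Set.uIoc (-w) (1 / T), ‖hh T k x 1‖ ≤ Real.exp 1 := by
      intro x hx
      rw [Set.uIoc_of_le (by linarith)] at hx
      rw [Real.norm_of_nonneg (hh_nonneg _ _ _ _)]
      unfold hh
      have h2 := hor2_exp h x hx.1.le hx.2
      have h3 : (x ^ 2 + 1 ^ 2) ^ (-(5 / 4) : ℝ) ≤ 1 :=
        Real.rpow_le_one_of_one_le_of_nonpos (by nlinarith [sq_nonneg x]) (by norm_num)
      calc (x ^ 2 + 1 ^ 2) ^ (-(5 / 4) : ℝ) * Real.exp (x * T - k * rc x 1)
          ≤ 1 * Real.exp 1 := mul_le_mul h3 (Real.exp_le_exp.2 h2) (Real.exp_pos _).le zero_le_one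
        _ = Real.exp 1 := one_mul _
    have h2 := intervalIntegral.norm_integral_le_of_norm_le_const h1
    have h3 := (le_abs_self _).trans h2
    refine h3.trans ?_
    have h4 : |1 / T - -w| ≤ 2 * w := by
      rw [abs_of_pos (by linarith)]
      linarith
    have h5 : s ^ 5 ≤ 4 := by
      have h10 : s ≤ 6 / 5 := by
        have := h.hr1
        rw [h.hr] at this
        nlinarith
      have : s ^ 5 ≤ (6 / 5) ^ 5 := pow_le_pow_left₀ hs.le h10 5
      refine this.trans (by norm_num)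
    have h6 : w ≤ 4 * (1 / (s ^ 4 * τ)) := by
      rw [h.hw]
      have e : s / τ = s ^ 5 * (1 / (s ^ 4 * τ)) := by
        field_simp
      rw [e]
      exact mul_le_mul_of_nonneg_right h5 hX.le
    have h7 : Real.exp 1 * |1 / T - -w| ≤ Real.exp 1 * (2 * (4 * (1 / (s ^ 4 * τ)))) :=
      mul_le_mul_of_nonneg_left (h4.trans (by linarith)) he1.le
    refine h7.trans ?_
    have h8 : Real.exp 1 * (2 * (4 * (1 / (s ^ 4 * τ)))) =
      (4 * Real.exp 1 * 2) * (1 / (s ^ 4 * τ)) := by ring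
    rw [h8]
    apply mul_le_mul_of_nonneg_right _ hX.le
    linarith

end Pool.Agent.Y267.HZ
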