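import Pool.Agent.Y745.HZ.Stm

/-!
Project HZ of helper745 (MP_6f2ed2_nt): common facts for HZ-IN, HZ-OUT, HZ-HOR (helper267).
-/

set_option autoImplicit false

namespace Pool.Agent.Y267.HZ

open Pool.Agent.Y745.HZ

theorem sinh_le {y : ℝ} (h0 : 0 ≤ y) (h1 : y ≤ 1) : Real.sinh y ≤ 6 / 5 * y := by
  have ha : |y| ≤ 1 := by rw [abs_of_nonneg h0]; exact h1
  have hb : |(-y)| ≤ 1 := by rw [abs_neg]; exact ha
  have e1 := (abs_le.1 (Real.exp_bound ha (n := 5) (by norm_num))).2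
  have e2 := (abs_le.1 (Real.exp_bound hb (n := 5) (by norm_num))).1
  rw [abs_neg] at e2
  rw [abs_of_nonneg h0] at e1 e2
  simp only [Finset.sum_range_succ, Finset.sum_range_zero, Nat.factorial, Nat.cast_one] at e1 e2
  norm_num at e1 e2
  rw [Real.sinh_eq]
  have h3 : y ^ 3 ≤ y := by
    have : y * (1 - y ^ 2) ≥ 0 := mul_nonneg h0 (by nlinarith)
    nlinarith
  have h5 : y ^ 5 ≤ y := by
    have h4 : y ^ 4 ≤ 1 := pow_le_one₀ h0 h1
    have : y * (1 - y ^ 4) ≥ 0 := mul_nonneg h0 (by linarith)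
    nlinarith
  nlinarith

/-- The common data. -/
structure Bas (T k r w ρ s τ z : ℝ) : Prop where
  hT : 10000 ≤ T
  hs : 0 < s
  hτ : 0 < τ
  hTτ : T = τ ^ 2
  hr : r = s ^ 2
  hw : w = s / τ
  hk : k = s ^ 4 * τ ^ 2
  hz : z = τ * s
  hz7 : 7 ≤ z
  hr1 : r ≤ 6 / 5
  hρ0 : 0 < ρ
  hρ1 : ρ ≤ 1
  hρs : Real.sinh ρ = r
  hρr : ρ ≤ r
  hrρ : r ≤ 6 / 5 * ρ
  hw1 : w ≤ 1 / 50
  hkT : k ≤ Real.sinh 1 ^ 2 * T
  hq : √T / k = 1 / (s ^ 4 * τ)
  hτ1 : 100 ≤ τ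

theorem bas (T k r w ρ : ℝ) (hT : 10000 ≤ T) (hk : 1 / 3 ≤ k) (hkT : k ≤ Real.sinh 1 ^ 2 * T)
    (hr : r = √(k / T)) (hw : w = √(r / T)) (hρ : ρ = Real.arsinh r) :
    Bas T k r w ρ (√r) (√T) (√T * √r) := by
  have hT0 : 0 < T := by linarith
  have hk0 : 0 < k := by linarith
  have hr0 : 0 < r := by rw [hr]; exact Real.sqrt_pos.2 (div_pos hk0 hT0)
  have hs0 : 0 < √r := Real.sqrt_pos.2 hr0
  have ht0 : 0 < √T := Real.sqrt_pos.2 hT0
  have hs2 : √r ^ 2 = r := Real.sq_sqrt hr0.le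
  have ht2 : √T ^ 2 = T := Real.sq_sqrt hT0.le
  have hr2 : r ^ 2 = k / T := by rw [hr]; exact Real.sq_sqrt (div_pos hk0 hT0).le
  have hkr : k = r ^ 2 * T := by rw [hr2]; field_simp
  have hsh : Real.sinh 1 ≤ 6 / 5 := by
    have := sinh_le (y := 1) (by norm_num) le_rfl
    linarith
  have hsh0 : 0 < Real.sinh 1 := Real.sinh_pos_iff.2 one_pos
  have hrs : r ≤ Real.sinh 1 := by
    rw [hr]
    rw [Real.sqrt_le_left hsh0.le, div_le_iff₀ hT0]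
    exact hkT
  have hρs : Real.sinh ρ = r := by rw [hρ]; exact Real.sinh_arsinh r
  have hρ0 : 0 < ρ := by
    rw [hρ]; exact Real.arsinh_pos_iff.2 hr0
  have hρ1 : ρ ≤ 1 := by
    rw [← Real.sinh_le_sinh, hρs]; exact hrs
  have hT100 : (100 : ℝ) ≤ √T := by
    apply Real.le_sqrt_of_sq_le
    norm_num
    exact hT
  have hz : 7 ≤ √T * √r := by
    have h1 : 57 ≤ T * r := by
      have h2 : (57 : ℝ) ^ 2 ≤ (T * r) ^ 2 := by
        have : (T * r) ^ 2 = T * k := by rw [hkr]; ring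
        rw [this]
        nlinarith
      exact (pow_le_pow_iff_left₀ (by norm_num) (by positivity) (by norm_num)).1 h2
    have h3 : (7 : ℝ) ^ 2 ≤ (√T * √r) ^ 2 := by
      rw [mul_pow, hs2, ht2]
      linarith
    exact (pow_le_pow_iff_left₀ (by norm_num) (by positivity) (by norm_num)).1 h3
  have hwe : w = √r / √T := by rw [hw, Real.sqrt_div hr0.le]
  refine ⟨hT, hs0, ht0, ht2.symm, hs2.symm, hwe, ?_, rfl, hz, hrs.trans hsh, hρ0, hρ1, hρs, ?_, ?_,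
    ?_, hkT, ?_, hT100⟩
  · have : √r ^ 4 = r ^ 2 := by
      rw [show (4 : ℕ) = 2 * 2 from rfl, pow_mul, hs2]
    rw [this, ht2]
    exact hkr
  · rw [← hρs]
    exact (Real.self_le_sinh_iff.2 hρ0.le)
  · rw [← hρs]
    exact sinh_le hρ0.le hρ1
  · rw [hwe, div_le_iff₀ ht0]
    have h1 : √r ≤ 2 := by
      rw [Real.sqrt_le_left (by norm_num)]
      linarith
    linarith
  · have h4 : √r ^ 4 = r ^ 2 := by
      rw [show (4 : ℕ) = 2 * 2 from rfl, pow_mul, hs2]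
    rw [h4, hkr, div_eq_div_iff (by positivity) (by positivity)]
    have : T = √T * √T := by rw [← sq, ht2]
    nth_rewrite 3 [this]
    ring

/-- Powers with exponent `-5/4`. -/
theorem rp {A c s : ℝ} (hs : 0 < s) (hc : 0 < c) (hc1 : c ≤ 1) (h : c * s ^ 4 ≤ A) :
    A ^ (-(5 / 4) : ℝ) ≤ (c ^ 2)⁻¹ * (s ^ 5)⁻¹ := by
  have h0 : 0 < c * s ^ 4 := by positivity
  have h1 : A ^ (-(5 / 4) : ℝ) ≤ (c * s ^ 4) ^ (-(5 / 4) : ℝ) :=
    Real.rpow_le_rpow_of_nonpos h0 h (by norm_num)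
  refine h1.trans ?_
  rw [Real.mul_rpow hc.le (by positivity)]
  have h2 : (s ^ 4) ^ (-(5 / 4) : ℝ) = (s ^ 5)⁻¹ := by
    rw [← Real.rpow_natCast, ← Real.rpow_mul hs.le, ← Real.rpow_natCast, ← Real.rpow_neg hs.le]
    norm_num
  have h3 : c ^ (-(5 / 4) : ℝ) ≤ (c ^ 2)⁻¹ := by
    rw [← Real.rpow_natCast, ← Real.rpow_neg hc.le]
    exact Real.rpow_le_rpow_of_exponent_ge hc hc1 (by norm_num)
  rw [h2]
  exact mul_le_mul_of_nonneg_right h3 (by positivity)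

theorem rp2 {A c s : ℝ} (hs : 0 < s) (hc : 0 < c) (hc1 : c ≤ 1) (h : c * s ^ 4 ≤ A) :
    A ^ (-(5 / 4) : ℝ) ≤ A⁻¹ * (c⁻¹ * s⁻¹) := by
  have h0 : 0 < c * s ^ 4 := by positivity
  have hA : 0 < A := h0.trans_le h
  have h4 : A ^ (-(5 / 4) : ℝ) = A⁻¹ * A ^ (-(1 / 4) : ℝ) := by
    rw [← Real.rpow_neg_one A, ← Real.rpow_add hA]
    norm_num
  rw [h4]
  refine mul_le_mul_of_nonneg_left ?_ (by positivity)
  have h1 : A ^ (-(1 / 4) : ℝ) ≤ (c * s ^ 4) ^ (-(1 / 4) : ℝ) :=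
    Real.rpow_le_rpow_of_nonpos h0 h (by norm_num)
  refine h1.trans ?_
  rw [Real.mul_rpow hc.le (by positivity)]
  have h2 : (s ^ 4) ^ (-(1 / 4) : ℝ) = s⁻¹ := by
    rw [← Real.rpow_natCast, ← Real.rpow_mul hs.le, ← Real.rpow_neg_one s]
    norm_num
  have h3 : c ^ (-(1 / 4) : ℝ) ≤ c⁻¹ := by
    rw [← Real.rpow_neg_one c]
    exact Real.rpow_le_rpow_of_exponent_ge hc hc1 (by norm_num)
  rw [h2]
  exact mul_le_mul_of_nonneg_right h3 (by positivity)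

theorem sc_le {u : ℝ} (h0 : 0 ≤ u) : Real.sin u * Real.cos u ≤ u := by
  have h1 := Real.sin_le (x := 2 * u) (by linarith)
  rw [Real.sin_two_mul] at h1
  linarith

theorem sc_ge {u : ℝ} (h0 : 0 ≤ u) (h1 : u ≤ 1 / 2) : u - u ^ 3 ≤ Real.sin u * Real.cos u := by
  rcases h0.eq_or_lt with h | h
  · rw [← h]; simp
  · have h2 := Real.sin_gt_sub_cube (x := 2 * u) (by linarith)
    rw [Real.sin_two_mul] at h2
    have h3 : 0 < u ^ 3 := pow_pos h 3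
    have h4 : (2 * u) ^ 3 = 8 * u ^ 3 := by ring
    rw [h4] at h2
    linarith

theorem hh_nonneg (T k x y : ℝ) : 0 ≤ hh T k x y := by
  unfold hh
  exact mul_nonneg (Real.rpow_nonneg (by positivity) _) (Real.exp_pos _).le

end Pool.Agent.Y267.HZ
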